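import Pool.Agent.Helper66.TU.Defs
import Pool.Agent.Helper9.GWA.Places
import Pool.Agent.Helper10.GWA.GCard

/-!
# Module COMPL: the completions of number fields containing `i`
-/

namespace GWA

open NumberField IsDedekindDomain Module

section COMPL

variable {L : Type} [Field L] [NumberField L] [Algebra GaussianInt L]

/-- unramified places: `v` divides the odd prime `π`, `v ^ 2` does not divide `π` -/
def UPl (v : HeightOneSpectrum (𝓞 L)) (π : GaussianInt) : Prop :=
  Prime π ∧ ¬ π ∣ 2 ∧ v.valuation L (algebraMap GaussianInt L π) = WithZero.exp (-1 : ℤ)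

open FinitePlace HeightOneSpectrum WithZero

omit [Algebra GaussianInt L] in
theorem tu_norm_val (v : HeightOneSpectrum (𝓞 L)) (z : L) :
    ‖algebraMap L (v.adicCompletion L) z‖ =
      (WithZeroMulInt.toNNReal (absNorm_ne_zero v) (v.valuation L z) : ℝ) :=
  FinitePlace.norm_embedding' v z

theorem UPl.norm_pi {v : HeightOneSpectrum (𝓞 L)} {π : GaussianInt} (h : UPl v π) :
    ‖algebraMap GaussianInt (v.adicCompletion L) π‖ =
        ((Ideal.absNorm v.asIdeal : NNReal) ^ (-1 : ℤ) : NNReal) := by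
  change ‖algebraMap L (v.adicCompletion L) (algebraMap GaussianInt L π)‖ = _
  rw [tu_norm_val, h.2.2, toNNReal_exp]

theorem UPl.lhu {v : HeightOneSpectrum (𝓞 L)} {π : GaussianInt} (h : UPl v π) :
    LHU (v.adicCompletion L) π where
  prime := h.1
  odd := h.2.1
  ultra x y := IsUltrametricDist.norm_add_le_max x y
  complete := inferInstance
  char0 := charZero_of_injective_algebraMap (algebraMap L (v.adicCompletion L)).injective
  norm_pi := by
    rw [h.norm_pi]
    have h1 := one_lt_absNorm_nnreal v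
    rw [zpow_neg_one, NNReal.coe_inv]
    exact inv_lt_one_of_one_lt₀ (by exact_mod_cast h1)
  unif x hx := by
    have h1 := h.norm_pi
    have h3 : (Valued.v x : ℤᵐ⁰) ≠ 0 := by
      rw [ne_eq, Valuation.zero_iff]; exact hx
    obtain ⟨n, hn⟩ : ∃ n : ℤ, (Valued.v x : ℤᵐ⁰) = exp n := ⟨log (Valued.v x), (exp_log h3).symm⟩
    refine ⟨-n, ?_⟩
    rw [FinitePlace.norm_def, hn, toNNReal_exp, h1]
    push_cast
    rw [← zpow_mul]
    congr 1
    ring

/-- the Gaussian integers in the ring of integers -/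
theorem exists_giO (L : Type) [Field L] [NumberField L] [Algebra GaussianInt L] :
    ∃ j : GaussianInt →+* 𝓞 L, ∀ a, algebraMap (𝓞 L) L (j a) = algebraMap GaussianInt L a := by
  have hint : ∀ a : GaussianInt, IsIntegral ℤ (algebraMap GaussianInt L a) := by
    intro a
    have := gi_integral.isIntegral a
    exact map_isIntegral_int (algebraMap GaussianInt L) this
  exact ⟨RingHom.codRestrict (algebraMap GaussianInt L) (integralClosure ℤ L) hint, fun a => rfl⟩

omit [Algebra GaussianInt L] in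
theorem tu_res (v : HeightOneSpectrum (𝓞 L)) {x : v.adicCompletion L} (hx : ‖x‖ ≤ 1) :
    ∃ a : 𝓞 L, ‖x - algebraMap L (v.adicCompletion L) (algebraMap (𝓞 L) L a)‖ < 1 := by
  have h1 : Dense (Set.range (algebraMap L (v.adicCompletion L))) := v.denseRange_algebraMap L
  obtain ⟨_, hy, ⟨y, rfl⟩⟩ := Metric.dense_iff.1 h1 x 1 one_pos
  rw [mem_ball_iff_norm] at hy
  have hy1 : ‖algebraMap L (v.adicCompletion L) y‖ ≤ 1 := by
    have : algebraMap L (v.adicCompletion L) y = (algebraMap L (v.adicCompletion L) y - x) + x := by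
      ring
    rw [this]
    exact (IsUltrametricDist.norm_add_le_max _ _).trans (max_le hy.le hx)
  have hval : ∀ z : L, ‖algebraMap L (v.adicCompletion L) z‖ ≤ 1 ↔ v.valuation L z ≤ 1 := by
    intro z
    rw [tu_norm_val]
    have := (WithZeroMulInt.toNNReal_strictMono (one_lt_absNorm_nnreal v)).le_iff_le
      (a := v.valuation L z) (b := 1)
    rw [map_one] at this
    rw [← this]
    norm_cast
  have hval' : ∀ z : L, ‖algebraMap L (v.adicCompletion L) z‖ < 1 ↔ v.valuation L z < 1 := by
    intro z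
    rw [tu_norm_val]
    have := (WithZeroMulInt.toNNReal_strictMono (one_lt_absNorm_nnreal v)).lt_iff_lt
      (a := v.valuation L z) (b := 1)
    rw [map_one] at this
    rw [← this]
    norm_cast
  obtain ⟨a, ha⟩ := v.exists_valuation_sub_lt_of_integer ((hval y).1 hy1) 1
  rw [Units.val_one, ← hval'] at ha
  refine ⟨a, ?_⟩
  have e2 : x - algebraMap L (v.adicCompletion L) (algebraMap (𝓞 L) L a) =
      -(algebraMap L (v.adicCompletion L) y - x) +
        -(algebraMap L (v.adicCompletion L) (algebraMap (𝓞 L) L a - y)) := by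
    rw [map_sub]; ring
  rw [e2]
  refine lt_of_le_of_lt (IsUltrametricDist.norm_add_le_max _ _) (max_lt ?_ ?_)
  · rwa [norm_neg]
  · rwa [norm_neg]

open Classical in
/-- the residue map -/
noncomputable def tu_r (v : HeightOneSpectrum (𝓞 L)) (x : v.adicCompletion L) :
    𝓞 L ⧸ v.asIdeal :=
  if hx : ∃ a : 𝓞 L, ‖x - algebraMap L (v.adicCompletion L) (algebraMap (𝓞 L) L a)‖ < 1 then
    Ideal.Quotient.mk v.asIdeal (Classical.choose hx)
  else 0

omit [Algebra GaussianInt L] in
theorem tu_r_eq (v : HeightOneSpectrum (𝓞 L)) {x : v.adicCompletion L} {a : 𝓞 L}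
    (ha : ‖x - algebraMap L (v.adicCompletion L) (algebraMap (𝓞 L) L a)‖ < 1) :
    tu_r v x = Ideal.Quotient.mk v.asIdeal a := by
  have hx : ∃ a : 𝓞 L, ‖x - algebraMap L (v.adicCompletion L) (algebraMap (𝓞 L) L a)‖ < 1 := ⟨a, ha⟩
  rw [tu_r, dif_pos hx]
  have h1 := Classical.choose_spec hx
  set b := Classical.choose hx
  rw [Ideal.Quotient.mk_eq_mk_iff_sub_mem, ← FinitePlace.norm_lt_one_iff_mem L v]
  change ‖algebraMap L (v.adicCompletion L) (algebraMap (𝓞 L) L (b - a))‖ < 1
  have e : algebraMap L (v.adicCompletion L) (algebraMap (𝓞 L) L (b - a)) =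
      (x - algebraMap L (v.adicCompletion L) (algebraMap (𝓞 L) L a)) +
      -(x - algebraMap L (v.adicCompletion L) (algebraMap (𝓞 L) L b)) := by
    rw [map_sub, map_sub]; ring
  rw [e]
  refine lt_of_le_of_lt (IsUltrametricDist.norm_add_le_max _ _) (max_lt ha ?_)
  rwa [norm_neg]

theorem UPl.exists_rmap {v : HeightOneSpectrum (𝓞 L)} {π : GaussianInt} (h : UPl v π) :
    ∃ (k : Type) (_ : Field k) (_ : Algebra GaussianInt k) (_ : Finite k)
      (r : v.adicCompletion L → k) (g : ℕ), RMap (v.adicCompletion L) k r ∧ 1 ≤ g ∧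
      g ≤ Module.finrank ℚ L ∧ Nat.card k = π.norm.natAbs ^ g := by
  classical
  obtain ⟨j, hj⟩ := exists_giO L
  have : v.asIdeal.IsMaximal := v.isMaximal
  let F : Field (𝓞 L ⧸ v.asIdeal) := Ideal.Quotient.field v.asIdeal
  let alg : Algebra GaussianInt (𝓞 L ⧸ v.asIdeal) :=
    ((Ideal.Quotient.mk v.asIdeal).comp j).toAlgebra
  have hfin : Finite (𝓞 L ⧸ v.asIdeal) := Ideal.finiteQuotientOfFreeOfNeBot v.asIdeal v.ne_bot
  have hint : ∀ a : 𝓞 L, ‖algebraMap L (v.adicCompletion L) (algebraMap (𝓞 L) L a)‖ ≤ 1 :=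
    fun a => FinitePlace.norm_le_one L v a
  have hmem : ∀ a : 𝓞 L, ‖algebraMap L (v.adicCompletion L) (algebraMap (𝓞 L) L a)‖ < 1 ↔
      a ∈ v.asIdeal := fun a => FinitePlace.norm_lt_one_iff_mem L v a
  have hR : RMap (v.adicCompletion L) (𝓞 L ⧸ v.asIdeal) (tu_r v) := by
    refine ⟨?_, ?_, ?_, ?_, ?_⟩
    · intro x y hx hy
      obtain ⟨a, ha⟩ := tu_res v hx
      obtain ⟨b, hb⟩ := tu_res v hy
      rw [tu_r_eq v ha, tu_r_eq v hb, ← map_add]
      apply tu_r_eq
      have e : x + y - algebraMap L (v.adicCompletion L) (algebraMap (𝓞 L) L (a + b)) =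
          (x - algebraMap L (v.adicCompletion L) (algebraMap (𝓞 L) L a)) +
          (y - algebraMap L (v.adicCompletion L) (algebraMap (𝓞 L) L b)) := by
        rw [map_add, map_add]; ring
      rw [e]
      exact lt_of_le_of_lt (IsUltrametricDist.norm_add_le_max _ _) (max_lt ha hb)
    · intro x y hx hy
      obtain ⟨a, ha⟩ := tu_res v hx
      obtain ⟨b, hb⟩ := tu_res v hy
      rw [tu_r_eq v ha, tu_r_eq v hb, ← map_mul]
      apply tu_r_eq
      have e : x * y - algebraMap L (v.adicCompletion L) (algebraMap (𝓞 L) L (a * b)) =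
          (x - algebraMap L (v.adicCompletion L) (algebraMap (𝓞 L) L a)) *
            algebraMap L (v.adicCompletion L) (algebraMap (𝓞 L) L b) +
          x * (y - algebraMap L (v.adicCompletion L) (algebraMap (𝓞 L) L b)) := by
        rw [map_mul, map_mul]; ring
      rw [e]
      refine lt_of_le_of_lt (IsUltrametricDist.norm_add_le_max _ _) (max_lt ?_ ?_)
      · rw [norm_mul]
        have := hint b
        have h0 := norm_nonneg (x - algebraMap L (v.adicCompletion L) (algebraMap (𝓞 L) L a))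
        nlinarith
      · rw [norm_mul]
        have h0 := norm_nonneg (y - algebraMap L (v.adicCompletion L) (algebraMap (𝓞 L) L b))
        nlinarith
    · intro x hx
      obtain ⟨a, ha⟩ := tu_res v hx
      rw [tu_r_eq v ha, Ideal.Quotient.eq_zero_iff_mem, ← hmem]
      constructor
      · intro h1
        have e : x = (x - algebraMap L (v.adicCompletion L) (algebraMap (𝓞 L) L a)) +
          algebraMap L (v.adicCompletion L) (algebraMap (𝓞 L) L a) := by ring
        rw [e]
        exact lt_of_le_of_lt (IsUltrametricDist.norm_add_le_max _ _) (max_lt ha h1)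
      · intro h1
        have e : algebraMap L (v.adicCompletion L) (algebraMap (𝓞 L) L a) =
          x + -(x - algebraMap L (v.adicCompletion L) (algebraMap (𝓞 L) L a)) := by ring
        rw [e]
        refine lt_of_le_of_lt (IsUltrametricDist.norm_add_le_max _ _) (max_lt h1 ?_)
        rwa [norm_neg]
    · intro c
      obtain ⟨a, rfl⟩ := Ideal.Quotient.mk_surjective c
      refine ⟨algebraMap L (v.adicCompletion L) (algebraMap (𝓞 L) L a), hint a, ?_⟩
      apply tu_r_eq
      rw [sub_self, norm_zero]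
      exact one_pos
    · intro a
      have e : algebraMap GaussianInt (v.adicCompletion L) a =
          algebraMap L (v.adicCompletion L) (algebraMap (𝓞 L) L (j a)) := by
        rw [hj]; rfl
      rw [e]
      apply tu_r_eq
      rw [sub_self, norm_zero]
      exact one_pos
  -- the cardinality
  have hπ0 : π ≠ 0 := h.1.ne_zero
  have hpk : algebraMap GaussianInt (𝓞 L ⧸ v.asIdeal) π = 0 := by
    rw [← hR.coe, hR.eq_zero _ (by exact h.lhu.norm_pi.le)]
    exact h.lhu.norm_pi
  have hmax : (Ideal.span {π} : Ideal GaussianInt).IsMaximal :=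
    PrincipalIdealRing.isMaximal_of_irreducible h.1.irreducible
  let Fq : Field (GaussianInt ⧸ Ideal.span {π}) := Ideal.Quotient.field _
  let ψ : GaussianInt ⧸ Ideal.span {π} →+* 𝓞 L ⧸ v.asIdeal :=
    Ideal.Quotient.lift (Ideal.span {π}) (algebraMap GaussianInt (𝓞 L ⧸ v.asIdeal)) (by
      intro a ha
      obtain ⟨b, rfl⟩ := Ideal.mem_span_singleton.1 ha
      rw [map_mul, hpk, zero_mul])
  let algq : Algebra (GaussianInt ⧸ Ideal.span {π}) (𝓞 L ⧸ v.asIdeal) := ψ.toAlgebra
  have hcq : Nat.card (GaussianInt ⧸ Ideal.span {π}) = π.norm.natAbs := card_quot π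
  have hcard : Nat.card (𝓞 L ⧸ v.asIdeal) =
      π.norm.natAbs ^ finrank (GaussianInt ⧸ Ideal.span {π}) (𝓞 L ⧸ v.asIdeal) := by
    rw [← hcq]
    exact Module.natCard_eq_pow_finrank
  refine ⟨𝓞 L ⧸ v.asIdeal, F, alg, hfin, tu_r v,
    finrank (GaussianInt ⧸ Ideal.span {π}) (𝓞 L ⧸ v.asIdeal), hR, ?_, ?_, hcard⟩
  · exact Nat.one_le_iff_ne_zero.2 (Module.finrank_pos).ne'
  · -- the norm of `v` divides the norm of `N(π)`
    set g := finrank (GaussianInt ⧸ Ideal.span {π}) (𝓞 L ⧸ v.asIdeal)
    set N := π.norm.natAbs with hN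
    have hN2 : 2 ≤ N := by
      have h1 : 0 < π.norm := GaussianInt.norm_pos.2 hπ0
      have h2 : π.norm ≠ 1 := by
        intro h0
        exact h.1.not_isUnit (Zsqrtd.isUnit_iff_norm_isUnit π |>.2 (by rw [h0]; exact isUnit_one))
      omega
    have hNmem : ((N : ℤ) : 𝓞 L) ∈ v.asIdeal := by
      rw [← Ideal.Quotient.eq_zero_iff_mem]
      have h1 : ((N : ℤ) : GaussianInt) = π * star π := by
        rw [hN, Int.natAbs_of_nonneg (GaussianInt.norm_nonneg π)]
        exact Zsqrtd.norm_eq_mul_conj π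
      have h2 : algebraMap GaussianInt (𝓞 L ⧸ v.asIdeal) ((N : ℤ) : GaussianInt) = 0 := by
        rw [h1, map_mul, hpk, zero_mul]
      rw [map_intCast] at h2
      rw [map_intCast]
      exact h2
    have hle : Ideal.span {((N : ℤ) : 𝓞 L)} ≤ v.asIdeal :=
      (Ideal.span_singleton_le_iff_mem _).2 hNmem
    have hdvd := Ideal.absNorm_dvd_absNorm_of_le hle
    have e1 : Ideal.absNorm v.asIdeal = N ^ g := by
      rw [← hcard, Ideal.absNorm_apply, Submodule.cardQuot_apply]
    have e2 : Ideal.absNorm (Ideal.span {((N : ℤ) : 𝓞 L)}) = N ^ finrank ℚ L := by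
      rw [Ideal.absNorm_span_singleton]
      have : ((N : ℤ) : 𝓞 L) = algebraMap ℤ (𝓞 L) (N : ℤ) := rfl
      rw [this, Algebra.norm_algebraMap, RingOfIntegers.rank, Int.natAbs_pow, Int.natAbs_natCast]
    rw [e1, e2] at hdvd
    exact (Nat.pow_dvd_pow_iff_le_right (by omega)).1 hdvd

end COMPL

end GWA
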