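import Pool.Agent.Helper66.TU.Defs
import Pool.Agent.Helper9.GWA.GApp

/-!
# Module GLOB: the closure of the rational points at one place
-/

namespace GWA

open Topology Filter

section GLOB

variable {L F : Type} [Field L] [NeZero (2 : L)] [Algebra GaussianInt L]
    [NormedField F] [NeZero (2 : F)] [DecidableEq F] [Algebra GaussianInt F] {π : GaussianInt}

omit [Algebra GaussianInt L] [Algebra GaussianInt F] in
/-- rescaling of the local datum -/
theorem AppAt.scale [DecidableEq L] {φ : L →+* F} {c : ℝ} {n : ℕ} {e₀ : Lˣ} {P₀ Q₀ : E (e₀ : L)}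
    {d e : Fˣ} {s : F} (hs : s ≠ 0) (hde : RingHom.id F (d : F) = (e : F) * s ^ 2)
    {P Q : E (d : F)} (h : AppAt φ c n e₀ P₀ Q₀ ⟨d, P, Q⟩) :
    AppAt φ c n e₀ P₀ Q₀ ⟨e, tr (RingHom.id F) hs e.ne_zero hde P,
      tr (RingHom.id F) hs e.ne_zero hde Q⟩ := by
  obtain ⟨r, hr, hre, h1, h2⟩ := h
  change tr φ hr d.ne_zero hre P₀ - P ∈ nbh c (d : F) n at h1
  change tr φ hr d.ne_zero hre Q₀ - Q ∈ nbh c (d : F) n at h2
  have hde' : (d : F) = (e : F) * s ^ 2 := hde
  have hre' : φ (e₀ : L) = (d : F) * r ^ 2 := hre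
  have hsr : s * r ≠ 0 := mul_ne_zero hs hr
  have hsre : φ (e₀ : L) = (e : F) * (s * r) ^ 2 := by
    rw [hre', hde']; ring
  have key : ∀ A : E (e₀ : L), tr φ hsr e.ne_zero hsre A =
      tr (RingHom.id F) hs e.ne_zero hde (tr φ hr d.ne_zero hre A) := by
    intro A
    by_cases hA : A = 0
    · rw [hA, map_zero, map_zero, map_zero]
    · apply pt_ext (tr_ne _ _ _ _ hA) (tr_ne _ _ _ _ (tr_ne _ _ _ _ hA))
      · rw [xc_tr, xc_tr, xc_tr, RingHom.id_apply]
        field_simp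
      · rw [yc_tr, yc_tr, yc_tr, RingHom.id_apply]
        field_simp
  have key2 : ∀ A : E (d : F), A ∈ nbh c (d : F) n →
      tr (RingHom.id F) hs e.ne_zero hde A ∈ nbh c (e : F) n := by
    intro A hA
    rcases hA with hA | hA
    · left; rw [hA, map_zero]
    · right
      rw [xc_tr, RingHom.id_apply, norm_div, norm_pow]
      have hdn : ‖(d : F)‖ = ‖(e : F)‖ * ‖s‖ ^ 2 := by rw [hde', norm_mul, norm_pow]
      have hs' : 0 < ‖s‖ ^ 2 := by positivity
      rw [le_div_iff₀ hs', mul_assoc, ← hdn]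
      exact hA
  refine ⟨s * r, hsr, hsre, ?_, ?_⟩
  · change tr φ hsr e.ne_zero hsre P₀ - tr (RingHom.id F) hs e.ne_zero hde P ∈ nbh c (e : F) n
    rw [key, ← map_sub]
    exact key2 _ h1
  · change tr φ hsr e.ne_zero hsre Q₀ - tr (RingHom.id F) hs e.ne_zero hde Q ∈ nbh c (e : F) n
    rw [key, ← map_sub]
    exact key2 _ h2

theorem dense_one (h : LHU F π) (φ : L →+* F)
    (hφ : ∀ a, φ (algebraMap GaussianInt L a) = algebraMap GaussianInt F a) (hd : DenseRange φ)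
    (hall : ∀ A : (d : Fˣ) → E (d : F) → E (d : F) → Prop, MSt π A →
      ∀ (d : Fˣ) (P Q : E (d : F)), A d P Q) : DenseRange (Pt.map φ) := by
  classical
  have := h.complete
  have hc : (1 : ℝ) < (‖algebraMap GaussianInt F π‖)⁻¹ := h.one_lt_inv
  have hnt : ∃ x : F, 1 < ‖x‖ := h.hntr
  have hwa : ∀ (x : Unit → F) (ε : ℝ), 0 < ε →
      ∃ t : L, ∀ v ∈ ({()} : Finset Unit), ‖φ t - x v‖ < ε := by
    intro x ε hε
    obtain ⟨t, ht⟩ := Metric.denseRange_iff.1 hd (x ()) ε hε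
    refine ⟨t, fun v _ => ?_⟩
    rw [dist_comm, dist_eq_norm] at ht
    exact ht
  let A : (d : Fˣ) → E (d : F) → E (d : F) → Prop := fun d P Q =>
    App (ι := Unit) (K := fun _ => F) (fun _ => φ) (fun _ => (‖algebraMap GaussianInt F π‖)⁻¹)
      {()} (fun _ => ⟨d, P, Q⟩)
  have hA : MSt π A := by
    refine ⟨?_, ?_, ?_, ?_, ?_⟩
    · intro d P Q H
      apply App.cl (fun _ => hc)
      intro n
      obtain ⟨P', Q', h1, h2, h3⟩ := H n
      exact ⟨_, h1, fun v _ => ⟨P', Q', rfl, h2, h3⟩⟩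
    · intro α β γ δ κ μ d P Q H
      exact App.aff (fun _ => hφ) (fun _ => hc) H α β γ δ κ μ
    · intro d P Q d' P' Q' hS H
      exact App.sig (fun _ => hnt) (fun _ => hc) H (fun _ _ => hS)
    · intro d e s hs hde P Q H n
      obtain ⟨e₀, P₀, Q₀, H0⟩ := H n
      exact ⟨e₀, P₀, Q₀, fun v hv => AppAt.scale hs hde (H0 v hv)⟩
    · intro d P
      exact App.base (fun _ => hnt) (fun _ => hc) (fun _ => hφ) hwa _ (fun _ _ => rfl)
  intro w
  rw [mem_closure_iff_nhds]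
  intro N hN
  obtain ⟨d, P, Q, hrep⟩ := exists_rep w
  have h1 : Near (ι := Unit) (K := fun _ => F) (fun _ => φ) {()} (fun _ => w) :=
    near_of_app (fun _ => hc) (hall A hA d P Q) (fun _ _ => hrep)
  obtain ⟨u, hu⟩ := h1 (fun _ => N) (fun _ _ => hN)
  exact ⟨_, hu () (Finset.mem_singleton_self _), u, rfl⟩

end GLOB

end GWA
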