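import Pool.Agent.Helper66.TU.Defs

/-!
# Module NODE2: all points near the node `(T, T)`
-/

namespace GWA

section RAM

variable {K : Type} [NormedField K] [Algebra GaussianInt K] [NeZero (2 : K)] [DecidableEq K]
  {π : GaussianInt} {k : Type} [Field k] [Algebra GaussianInt k] {r : K → k}
  {A : (d : Kˣ) → E (d : K) → E (d : K) → Prop}

omit [NeZero (2 : K)] [DecidableEq K] in
theorem LHU.n2_one_add (h : LHU K π) {a b : K} (ha : ‖a‖ = 1) (hb : ‖b‖ < 1) : ‖a + b‖ = 1 := by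
  rw [h.norm_sum_eq (by rw [ha]; exact hb), ha]

omit [NeZero (2 : K)] [DecidableEq K] in
theorem LHU.n2_w (h : LHU K π) {d : K} (hd : d ≠ 0) {P : E d} (hP0 : P ≠ 0)
    (hP : P ∈ nb π d 0) : ‖xc P * tt P ^ 2 - 1‖ < 1 := by
  obtain ⟨hx0, hy⟩ := h.norm_yc hd hP0 hP
  obtain ⟨hy0, -⟩ := h.norm_tt hd hP0 hP
  have h1 := h.norm_nx_sq hd hP0 hP
  have hx : ‖d‖ < ‖xc P‖ := by
    rw [xc_eq hd, norm_mul]
    exact lt_mul_of_one_lt_right (norm_pos_iff.2 hd) h1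
  have hxp : 0 < ‖xc P‖ := norm_pos_iff.2 hx0
  have e1 : (xc P * tt P ^ 2 - 1) * yc P ^ 2 = d ^ 2 * xc P := by
    have e2 : xc P * tt P ^ 2 * yc P ^ 2 = xc P ^ 3 := by
      unfold tt
      field_simp
    have e3 := curve_eq P
    linear_combination e2 - e3
  have e2 := congrArg norm e1
  rw [norm_mul, norm_pow, hy, norm_mul, norm_pow] at e2
  have h3 : ‖d‖ ^ 2 < ‖xc P‖ ^ 2 := pow_lt_pow_left₀ hx (norm_nonneg _) two_ne_zero
  have h4 : ‖xc P * tt P ^ 2 - 1‖ * ‖xc P‖ ^ 3 < 1 * ‖xc P‖ ^ 3 := by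
    rw [e2, one_mul]
    calc ‖d‖ ^ 2 * ‖xc P‖ < ‖xc P‖ ^ 2 * ‖xc P‖ := mul_lt_mul_of_pos_right h3 hxp
      _ = ‖xc P‖ ^ 3 := by ring
  exact lt_of_mul_lt_mul_right h4 (by positivity)

omit [NeZero (2 : K)] [DecidableEq K] in
/-- choice of a good translate -/
theorem LHU.n2_choose (h : LHU K π) (hr : RMap K k r) (h7 : 64 ≤ π.norm.natAbs) {t : K}
    (ht : ‖t‖ ≤ 1) : ∃ n : ℕ, ‖t + n‖ = 1 ∧ ‖(t + n) ^ 2 + 1‖ = 1 ∧ ‖2 * (t + n) ^ 2 - 1‖ = 1 ∧
      ‖(t + n) ^ 2 - 2‖ = 1 := by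
  classical
  have hrn : ∀ n : ℕ, r (n : K) = n := by
    intro n
    have := hr.coe (n : GaussianInt)
    rwa [map_natCast, map_natCast] at this
  have hrz : ∀ n : ℤ, r (n : K) = n := by
    intro n
    have := hr.coe (n : GaussianInt)
    rwa [map_intCast, map_intCast] at this
  have hunit : ∀ y : K, ‖y‖ ≤ 1 → r y ≠ 0 → ‖y‖ = 1 := by
    intro y hy hry
    rcases lt_or_eq_of_le hy with h1 | h1
    · exact absurd ((hr.eq_zero y hy).2 h1) hry
    · exact h1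
  -- the polynomial
  let p : Polynomial k := Polynomial.X * (Polynomial.X ^ 2 + 1) *
    (Polynomial.C 2 * Polynomial.X ^ 2 - 1) * (Polynomial.X ^ 2 - Polynomial.C 2)
  have hp : p ≠ 0 := by
    have h1 : (Polynomial.X ^ 2 + 1 : Polynomial k) ≠ 0 := by
      intro h0
      have := congrArg (fun q => Polynomial.coeff q 0) h0
      simp at this
    have h2 : (Polynomial.C 2 * Polynomial.X ^ 2 - 1 : Polynomial k) ≠ 0 := by
      intro h0
      have := congrArg (fun q => Polynomial.coeff q 0) h0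
      simp at this
    have h3 : (Polynomial.X ^ 2 - Polynomial.C 2 : Polynomial k) ≠ 0 := by
      intro h0
      have := congrArg (fun q => Polynomial.coeff q 2) h0
      simp at this
    exact mul_ne_zero (mul_ne_zero (mul_ne_zero Polynomial.X_ne_zero h1) h2) h3
  have hdeg : p.natDegree ≤ 7 := by
    change (Polynomial.X * (Polynomial.X ^ 2 + 1) *
      (Polynomial.C 2 * Polynomial.X ^ 2 - 1) * (Polynomial.X ^ 2 - Polynomial.C 2) :
        Polynomial k).natDegree ≤ 7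
    compute_degree
  have hinj : Function.Injective (fun i : Fin 8 => r t + ((i : ℕ) : k)) := by
    intro i j hij
    have h1 : ((i : ℕ) : k) = ((j : ℕ) : k) := add_left_cancel hij
    by_contra hne
    have hne' : ((i : ℕ) : ℤ) - ((j : ℕ) : ℤ) ≠ 0 := by
      intro h0
      apply hne
      apply Fin.ext
      omega
    set m : ℤ := ((i : ℕ) : ℤ) - ((j : ℕ) : ℤ) with hm
    have h2 : r (m : K) = 0 := by
      rw [hrz, hm]
      push_cast
      rw [h1, sub_self]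
    have h3 : ‖(m : K)‖ < 1 := (hr.eq_zero _ (h.norm_intCast_le m)).1 h2
    have h4 : ‖algebraMap GaussianInt K (m : GaussianInt)‖ < 1 := by
      rw [map_intCast]; exact h3
    have h5 : π ∣ (m : GaussianInt) := (h.norm_lt_one_iff _).1 h4
    obtain ⟨c, hc⟩ := h5
    have h6 := congrArg Zsqrtd.norm hc
    rw [Zsqrtd.norm_mul, Zsqrtd.norm_intCast] at h6
    have h7' : π.norm ∣ m * m := ⟨_, h6⟩
    have h8 : 0 < m * m := mul_self_pos.2 hne'
    have h9 := Int.le_of_dvd h8 h7'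
    have h10 : -7 ≤ m ∧ m ≤ 7 := by
      have := i.2
      have := j.2
      omega
    have h11 : m * m ≤ 49 := by nlinarith
    have h12 : 0 ≤ π.norm := GaussianInt.norm_nonneg π
    omega
  obtain ⟨i, hi⟩ : ∃ i : Fin 8, p.eval (r t + ((i : ℕ) : k)) ≠ 0 := by
    by_contra! H
    apply hp
    apply Polynomial.eq_zero_of_natDegree_lt_card_of_eval_eq_zero p hinj H
    rw [Fintype.card_fin]
    omega
  have hle : ‖t + ((i : ℕ) : K)‖ ≤ 1 := (h.ultra _ _).trans (max_le ht (h.norm_natCast_le _))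
  have hc : r (t + ((i : ℕ) : K)) = r t + ((i : ℕ) : k) := by
    rw [hr.add _ _ ht (h.norm_natCast_le _), hrn]
  refine ⟨(i : ℕ), ?_⟩
  set u : K := t + ((i : ℕ) : K) with hu
  rw [← hc] at hi
  have hi' : r u * (r u ^ 2 + 1) * (2 * r u ^ 2 - 1) * (r u ^ 2 - 2) ≠ 0 := by
    simpa [p] using hi
  have hl := left_ne_zero_of_mul hi'
  have hl2 := left_ne_zero_of_mul hl
  have f1 := left_ne_zero_of_mul hl2
  have f2 := right_ne_zero_of_mul hl2
  have f3 := right_ne_zero_of_mul hl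
  have f4 := right_ne_zero_of_mul hi'
  have hsq : ‖u ^ 2‖ ≤ 1 := by
    rw [norm_pow]; exact pow_le_one₀ (norm_nonneg _) hle
  have hrsq : r (u ^ 2) = r u ^ 2 := by
    rw [sq, hr.mul _ _ hle hle, sq]
  have h2' : ‖(2 : K)‖ ≤ 1 := h.norm_ofNat_le 2
  have h2sq : ‖2 * u ^ 2‖ ≤ 1 := by
    rw [norm_mul]
    exact mul_le_one₀ h2' (norm_nonneg _) hsq
  have hr2 : r (2 : K) = 2 := by
    have := hrn 2
    exact_mod_cast this
  have hr1 : r (1 : K) = 1 := by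
    have := hrn 1
    exact_mod_cast this
  have hrm1 : r (-1 : K) = -1 := by
    have := hrz (-1)
    push_cast at this
    exact this
  have hrm2 : r (-2 : K) = -2 := by
    have := hrz (-2)
    push_cast at this
    exact this
  have n1 : ‖(1 : K)‖ ≤ 1 := norm_one.le
  have nm1 : ‖(-1 : K)‖ ≤ 1 := by rw [norm_neg]; exact norm_one.le
  have nm2 : ‖(-2 : K)‖ ≤ 1 := by rw [norm_neg]; exact h2'
  refine ⟨hunit u hle f1, ?_, ?_, ?_⟩
  · apply hunit
    · exact (h.ultra _ _).trans (max_le hsq n1)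
    · rw [hr.add _ _ hsq n1, hrsq, hr1]; exact f2
  · rw [sub_eq_add_neg]
    apply hunit
    · exact (h.ultra _ _).trans (max_le h2sq nm1)
    · rw [hr.add _ _ h2sq nm1, hr.mul _ _ h2' hsq, hrsq, hr2, hrm1, ← sub_eq_add_neg]; exact f3
  · rw [sub_eq_add_neg]
    apply hunit
    · exact (h.ultra _ _).trans (max_le hsq nm2)
    · rw [hr.add _ _ hsq nm2, hrsq, hrm2, ← sub_eq_add_neg]; exact f4

omit [NeZero (2 : K)] [DecidableEq K] in
/-- perturbation of the conditions -/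
theorem LHU.n2_pert (h : LHU K π) {u e : K} (he : ‖e‖ < 1) (h1 : ‖u‖ = 1)
    (h2 : ‖u ^ 2 + 1‖ = 1) (h3 : ‖2 * u ^ 2 - 1‖ = 1) (h4 : ‖u ^ 2 - 2‖ = 1) :
    ‖u + e‖ = 1 ∧ ‖(u + e) ^ 2 + 1‖ = 1 ∧ ‖2 * (u + e) ^ 2 - 1‖ = 1 ∧ ‖(u + e) ^ 2 - 2‖ = 1 := by
  have h2' : ‖(2 : K)‖ ≤ 1 := h.norm_ofNat_le 2
  have hb : ‖2 * u * e + e ^ 2‖ < 1 := by
    refine lt_of_le_of_lt (h.ultra _ _) (max_lt ?_ ?_)
    · rw [norm_mul, norm_mul, h1, mul_one]
      nlinarith [norm_nonneg e]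
    · rw [norm_pow]
      exact pow_lt_one₀ (norm_nonneg _) he two_ne_zero
  have hb2 : ‖2 * (2 * u * e + e ^ 2)‖ < 1 := by
    rw [norm_mul]
    nlinarith [norm_nonneg (2 * u * e + e ^ 2)]
  refine ⟨h.n2_one_add h1 he, ?_, ?_, ?_⟩
  · have : (u + e) ^ 2 + 1 = (u ^ 2 + 1) + (2 * u * e + e ^ 2) := by ring
    rw [this]; exact h.n2_one_add h2 hb
  · have : 2 * (u + e) ^ 2 - 1 = (2 * u ^ 2 - 1) + 2 * (2 * u * e + e ^ 2) := by ring
    rw [this]; exact h.n2_one_add h3 hb2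
  · have : (u + e) ^ 2 - 2 = (u ^ 2 - 2) + (2 * u * e + e ^ 2) := by ring
    rw [this]; exact h.n2_one_add h4 hb

omit [DecidableEq K] in
/-- the conditions for the ratio of the x-coordinates -/
theorem LHU.n2_ratio (h : LHU K π) (d : Kˣ) {ε ε' : E (d : K)} (hε : ε ∈ nb π (d : K) 0)
    (hε' : ε' ∈ nb π (d : K) 0) (hne : ε ≠ 0) (hne' : ε' ≠ 0) {s : K}
    (hs : tt ε = s * tt ε') (h1 : ‖s‖ = 1) (h2 : ‖s ^ 2 + 1‖ = 1) (h3 : ‖2 * s ^ 2 - 1‖ = 1)
    (h4 : ‖s ^ 2 - 2‖ = 1) :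
    ‖nx ε‖ = ‖nx ε'‖ ∧ ‖nx ε / nx ε' + 1‖ = 1 ∧ ‖nx ε / nx ε' - 2‖ = 1 ∧
      ‖2 * (nx ε / nx ε') - 1‖ = 1 := by
  have hd := d.ne_zero
  have w1 := h.n2_w hd hne hε
  have w2 := h.n2_w hd hne' hε'
  obtain ⟨hx0, -⟩ := h.norm_yc hd hne hε
  obtain ⟨hx0', -⟩ := h.norm_yc hd hne' hε'
  have ht := h.tt_ne hd hne hε
  have ht' := h.tt_ne hd hne' hε'
  have hs0 : s ≠ 0 := norm_ne_zero_iff.1 (by rw [h1]; exact one_ne_zero)
  set a := xc ε * tt ε ^ 2 - 1 with ha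
  set b := xc ε' * tt ε' ^ 2 - 1 with hb
  have hb1 : ‖1 + b‖ = 1 := h.n2_one_add norm_one w2
  have ha1 : ‖1 + a‖ = 1 := h.n2_one_add norm_one w1
  have hb0 : 1 + b ≠ 0 := norm_ne_zero_iff.1 (by rw [hb1]; exact one_ne_zero)
  -- the ratio
  set v := nx ε / nx ε' with hv
  have hv1 : v * s ^ 2 * (1 + b) = 1 + a := by
    have e1 : v = xc ε / xc ε' := by
      rw [hv]; unfold nx; field_simp
    have e2 : 1 + b = xc ε' * tt ε' ^ 2 := by rw [hb]; ring
    have e3 : 1 + a = xc ε * tt ε ^ 2 := by rw [ha]; ring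
    rw [e1, e2, e3, hs]
    field_simp
  have hδ : ∃ δ : K, ‖δ‖ < 1 ∧ v * s ^ 2 = 1 + δ := by
    refine ⟨(a - b) / (1 + b), ?_, ?_⟩
    · rw [norm_div, hb1, div_one]
      exact lt_of_le_of_lt (h.norm_sub_le _ _) (max_lt w1 w2)
    · field_simp
      linear_combination hv1
  obtain ⟨δ, hδ1, hδ2⟩ := hδ
  have hs2 : ‖s ^ 2‖ = 1 := by rw [norm_pow, h1, one_pow]
  have hvn : ‖v‖ = 1 := by
    have := congrArg norm hδ2
    rw [norm_mul, hs2, mul_one, h.n2_one_add norm_one hδ1] at this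
    exact this
  have h2' : ‖(2 : K)‖ ≤ 1 := h.norm_ofNat_le 2
  have hfin : ∀ y z : K, y * s ^ 2 = z → ‖z‖ = 1 → ‖y‖ = 1 := by
    intro y z hyz hz
    have := congrArg norm hyz
    rw [norm_mul, hs2, mul_one, hz] at this
    exact this
  refine ⟨?_, ?_, ?_, ?_⟩
  · have hn : ‖nx ε'‖ ≠ 0 := by
      have := h.norm_nx_sq hd hne' hε'
      positivity
    have : ‖nx ε‖ / ‖nx ε'‖ = 1 := by rw [← norm_div]; exact hvn
    rwa [div_eq_one_iff_eq hn] at this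
  · apply hfin _ ((s ^ 2 + 1) + δ) (by linear_combination hδ2)
    exact h.n2_one_add h2 hδ1
  · apply hfin _ (-(2 * s ^ 2 - 1) + δ) (by linear_combination hδ2)
    exact h.n2_one_add (by rw [norm_neg]; exact h3) hδ1
  · apply hfin _ (-(s ^ 2 - 2) + 2 * δ) (by linear_combination 2 * hδ2)
    refine h.n2_one_add (by rw [norm_neg]; exact h4) ?_
    rw [norm_mul]
    nlinarith [norm_nonneg δ]

/-- the case `|tt ε| ≤ |tt ε'|`, `ε' ≠ 0` -/
theorem MSt.n2_main (hA : MSt π A) (h : LHU K π) (hr : RMap K k r) (h7 : 64 ≤ π.norm.natAbs)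
    (hgen : ∀ (d : Kˣ) {ε ε' : E (d : K)} (_ : ε ∈ nb π (d : K) 0) (_ : ε' ∈ nb π (d : K) 0)
      (_ : ε ≠ 0) (_ : ε' ≠ 0) (_ : ‖nx ε‖ = ‖nx ε'‖) (_ : ‖nx ε / nx ε' + 1‖ = 1)
      (_ : ‖nx ε / nx ε' - 2‖ = 1) (_ : ‖2 * (nx ε / nx ε') - 1‖ = 1),
      A d (T d.ne_zero + ε) (T d.ne_zero + ε')) (d : Kˣ) {ε ε' : E (d : K)}
    (hε : ε ∈ nb π (d : K) 0) (hε' : ε' ∈ nb π (d : K) 0) (hne' : ε' ≠ 0)
    (hle : ‖tt ε‖ ≤ ‖tt ε'‖) :
    A d (T d.ne_zero + ε) (T d.ne_zero + ε') := by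
  have hd := d.ne_zero
  have ht' := h.tt_ne hd hne' hε'
  have htp : 0 < ‖tt ε'‖ := norm_pos_iff.2 ht'
  have ht : ‖tt ε / tt ε'‖ ≤ 1 := by
    rw [norm_div, div_le_one htp]; exact hle
  obtain ⟨n, u1, u2, u3, u4⟩ := h.n2_choose hr h7 ht
  have hn1 := h.nb_smul d 0 (n : GaussianInt) hε'
  have hε1 := h.nb_add hd 0 hε hn1
  have hϖ := h.norm_pi
  have hϖ0 := h.norm_pi_pos
  -- the error
  have e1 := h.tt_add hd hε hn1
  have e2 := h.tt_smul d (n : GaussianInt) hε'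
  rw [map_natCast] at e2
  have hlt : ∀ x : ℝ, 0 ≤ x → x ≤ ‖tt ε'‖ → ‖algebraMap GaussianInt K π‖ ^ 2 * x < ‖tt ε'‖ := by
    intro x hx0 hx
    have : ‖algebraMap GaussianInt K π‖ ^ 2 < 1 := pow_lt_one₀ (norm_nonneg _) hϖ two_ne_zero
    nlinarith
  set err := tt (ε + (n : GaussianInt) • ε') - tt ε - n * tt ε' with herr
  have herr1 : ‖err‖ < ‖tt ε'‖ := by
    have : err = (tt (ε + (n : GaussianInt) • ε') - tt ε - tt ((n : GaussianInt) • ε')) +
        (tt ((n : GaussianInt) • ε') - n * tt ε') := by rw [herr]; ring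
    rw [this]
    refine lt_of_le_of_lt (h.ultra _ _) (max_lt ?_ ?_)
    · refine lt_of_le_of_lt e1 (hlt _ (by positivity) ?_)
      exact (min_le_left _ _).trans hle
    · exact lt_of_le_of_lt e2 (hlt _ (norm_nonneg _) le_rfl)
  have herr2 : ‖err / tt ε'‖ < 1 := by
    rw [norm_div, div_lt_one htp]; exact herr1
  obtain ⟨s1, s2, s3, s4⟩ := h.n2_pert herr2 u1 u2 u3 u4
  set s := tt ε / tt ε' + n + err / tt ε' with hs
  have hts : tt (ε + (n : GaussianInt) • ε') = s * tt ε' := by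
    rw [hs, herr]
    field_simp
    ring
  have hne1 : ε + (n : GaussianInt) • ε' ≠ 0 := by
    intro h0
    rw [h0, ftt_zero] at hts
    have : s ≠ 0 := norm_ne_zero_iff.1 (by rw [s1]; exact one_ne_zero)
    exact mul_ne_zero this ht' hts.symm
  obtain ⟨r1, r2, r3, r4⟩ := h.n2_ratio d hε1 hε' hne1 hne' hts s1 s2 s3 s4
  have h1 := hgen d hε1 hε' hne1 hne' r1 r2 r3 r4
  have h2 := hA.aff 1 (-(n : GaussianInt)) 0 1 (n : GaussianInt) 0 d _ _ h1
  have g1 : (1 : GaussianInt) • (T d.ne_zero + (ε + (n : GaussianInt) • ε')) +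
      (-(n : GaussianInt)) • (T d.ne_zero + ε') + (n : GaussianInt) • T d.ne_zero =
      T d.ne_zero + ε := by
    rw [one_smul, neg_smul, smul_add]; abel
  have g2 : (0 : GaussianInt) • (T d.ne_zero + (ε + (n : GaussianInt) • ε')) +
      (1 : GaussianInt) • (T d.ne_zero + ε') + (0 : GaussianInt) • T d.ne_zero =
      T d.ne_zero + ε' := by
    rw [zero_smul, zero_smul, one_smul, zero_add, add_zero]
  rw [g1, g2] at h2
  exact h2

theorem MSt.node_all (hA : MSt π A) (h : LHU K π) (hr : RMap K k r) (h7 : 64 ≤ π.norm.natAbs)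
    (hgen : ∀ (d : Kˣ) {ε ε' : E (d : K)} (_ : ε ∈ nb π (d : K) 0) (_ : ε' ∈ nb π (d : K) 0)
      (_ : ε ≠ 0) (_ : ε' ≠ 0) (_ : ‖nx ε‖ = ‖nx ε'‖) (_ : ‖nx ε / nx ε' + 1‖ = 1)
      (_ : ‖nx ε / nx ε' - 2‖ = 1) (_ : ‖2 * (nx ε / nx ε') - 1‖ = 1),
      A d (T d.ne_zero + ε) (T d.ne_zero + ε')) (d : Kˣ) {ε ε' : E (d : K)}
    (hε : ε ∈ nb π (d : K) 0) (hε' : ε' ∈ nb π (d : K) 0) (κ μ : GaussianInt) :
    A d (κ • T d.ne_zero + ε) (μ • T d.ne_zero + ε') := by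
  have hd := d.ne_zero
  -- at least one of the points is nonzero
  have key1 : ∀ {ε ε' : E (d : K)}, ε ∈ nb π (d : K) 0 → ε' ∈ nb π (d : K) 0 →
      (ε ≠ 0 ∨ ε' ≠ 0) → A d (T d.ne_zero + ε) (T d.ne_zero + ε') := by
    intro ε ε' hε hε' hne
    rcases le_or_gt ‖tt ε‖ ‖tt ε'‖ with hle | hlt
    · have hne' : ε' ≠ 0 := by
        rintro rfl
        rcases hne with h1 | h1
        · have := h.tt_ne hd h1 hε
          rw [ftt_zero, norm_zero] at hle
          exact this (norm_le_zero_iff.1 hle)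
        · exact h1 rfl
      exact hA.n2_main h hr h7 hgen d hε hε' hne' hle
    · have hne' : ε ≠ 0 := by
        rintro rfl
        rw [ftt_zero, norm_zero] at hlt
        exact absurd hlt (not_lt.2 (norm_nonneg _))
      have h1 := hA.n2_main h hr h7 hgen d hε' hε hne' hlt.le
      have h2 := hA.aff 0 1 1 0 0 0 d _ _ h1
      have g1 : (0 : GaussianInt) • (T d.ne_zero + ε') + (1 : GaussianInt) • (T d.ne_zero + ε) +
          (0 : GaussianInt) • T d.ne_zero = T d.ne_zero + ε := by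
        rw [zero_smul, zero_smul, one_smul, zero_add, add_zero]
      have g2 : (1 : GaussianInt) • (T d.ne_zero + ε') + (0 : GaussianInt) • (T d.ne_zero + ε) +
          (0 : GaussianInt) • T d.ne_zero = T d.ne_zero + ε' := by
        rw [zero_smul, zero_smul, one_smul, add_zero, add_zero]
      rw [g1, g2] at h2
      exact h2
  have key2 : ∀ {ε ε' : E (d : K)}, ε ∈ nb π (d : K) 0 → ε' ∈ nb π (d : K) 0 →
      A d (T d.ne_zero + ε) (T d.ne_zero + ε') := by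
    intro ε ε' hε hε'
    by_cases h0 : ε ≠ 0 ∨ ε' ≠ 0
    · exact key1 hε hε' h0
    · push Not at h0
      obtain ⟨rfl, rfl⟩ := h0
      apply hA.cl
      intro n
      obtain ⟨η, h1, m, h2⟩ := h.nb_lev hd n
      have hη0 : η ≠ 0 := by
        rintro rfl
        exact h2 (zero_mem_nbh _ _ _)
      have hη := h.nb_le0 h1
      refine ⟨T d.ne_zero + η, T d.ne_zero + η, key1 hη hη (Or.inl hη0), ?_, ?_⟩
      · rw [add_zero, add_sub_cancel_left]; exact h1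
      · rw [add_zero, add_sub_cancel_left]; exact h1
  have h1 := key2 hε hε'
  have h2 := hA.aff 1 0 0 1 (κ - 1) (μ - 1) d _ _ h1
  have g1 : (1 : GaussianInt) • (T d.ne_zero + ε) + (0 : GaussianInt) • (T d.ne_zero + ε') +
      (κ - 1) • T d.ne_zero = κ • T d.ne_zero + ε := by
    rw [zero_smul, one_smul, sub_smul, one_smul, add_zero]; abel
  have g2 : (0 : GaussianInt) • (T d.ne_zero + ε) + (1 : GaussianInt) • (T d.ne_zero + ε') +
      (μ - 1) • T d.ne_zero = μ • T d.ne_zero + ε' := by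
    rw [zero_smul, one_smul, sub_smul, one_smul, zero_add]; abel
  rw [g1, g2] at h2
  exact h2

end RAM

end GWA
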